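import Pool.Agent.helper84.LP.SpecG

/-!
# MP_07c750, project LP: row BBX (a cell of slopes is a forward box)
-/

open scoped MatrixGroups ContDiff Topology UpperHalfPlane ComplexConjugate
open UpperHalfPlane MeasureTheory Filter Set

set_option autoImplicit false

namespace Pool.Agent.LP

open Pool.Agent.RS
open Pool.Agent.MS (bq BB BA SF pf)
open Pool.Agent.HV (FW)
open Pool.Agent.EN (XG MG mkX mkM fl pr)
open Pool.Agent.ER (Low LowJ)

noncomputable section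

lemma BBX_lc (w : ℝ) : ((lM w : SL(2, ℝ)) : Matrix (Fin 2) (Fin 2) ℝ) = !![1, 0; w, 1] := rfl

lemma BBX_ac (τ : ℝ) : ((aM τ : SL(2, ℝ)) : Matrix (Fin 2) (Fin 2) ℝ) =
    !![Real.exp (τ / 2), 0; 0, Real.exp (-(τ / 2))] := rfl

lemma BBX_nc (x : ℝ) : ((nM x : SL(2, ℝ)) : Matrix (Fin 2) (Fin 2) ℝ) = !![1, x; 0, 1] := rfl

lemma BBX_ni (x : ℝ) : (nM x)⁻¹ = nM (-x) := by
  rw [inv_eq_iff_mul_eq_one]
  apply Subtype.ext
  rw [Matrix.SpecialLinearGroup.coe_mul, BBX_nc, BBX_nc, Matrix.mul_fin_two]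
  rw [← Matrix.ext_iff]
  intro i j
  fin_cases i <;> fin_cases j <;> simp

lemma BBX_ai (t : ℝ) : (aM (-t))⁻¹ = aM t := by
  rw [inv_eq_iff_mul_eq_one]
  apply Subtype.ext
  rw [Matrix.SpecialLinearGroup.coe_mul, BBX_ac, BBX_ac, Matrix.mul_fin_two]
  rw [← Matrix.ext_iff]
  intro i j
  fin_cases i <;> fin_cases j <;> simp [← Real.exp_add] <;> ring_nf

/-- the matrix of the conjugated element -/
lemma BBX_mat (w τ x X0 p : ℝ) :
    ((aM p * nM (-X0) * (lM w * aM τ * nM x) * aM (-p) : SL(2, ℝ)) : Matrix (Fin 2) (Fin 2) ℝ) =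
    !![Real.exp (τ / 2) * (1 - X0 * w), Real.exp p * (x * Real.exp (τ / 2) - X0 * dX w τ x);
      Real.exp (-p) * (w * Real.exp (τ / 2)), dX w τ x] := by
  have h1 : Real.exp (p / 2) * Real.exp (-p / 2) = 1 := by
    rw [← Real.exp_add]
    have : p / 2 + -p / 2 = 0 := by ring
    rw [this, Real.exp_zero]
  have h2 : Real.exp (-(-p / 2)) = Real.exp (p / 2) := by
    congr 1
    ring
  have h3 : Real.exp (-(p / 2)) = Real.exp (-p / 2) := by
    congr 1
    ring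
  have h4 : Real.exp p = Real.exp (p / 2) * Real.exp (p / 2) := by
    rw [← Real.exp_add]
    congr 1
    ring
  have h5 : Real.exp (-p) = Real.exp (-p / 2) * Real.exp (-p / 2) := by
    rw [← Real.exp_add]
    congr 1
    ring
  simp only [Matrix.SpecialLinearGroup.coe_mul, BBX_lc, BBX_ac, BBX_nc, Matrix.mul_fin_two]
  unfold dX
  rw [h2, h3, h4, h5]
  set a : ℝ := Real.exp (p / 2)
  set b : ℝ := Real.exp (-p / 2)
  set E : ℝ := Real.exp (τ / 2)
  set E' : ℝ := Real.exp (-(τ / 2))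
  rw [← Matrix.ext_iff]
  intro i j
  fin_cases i <;> fin_cases j
  · simp
    linear_combination (E * (1 - X0 * w)) * h1
  · simp
    ring
  · simp
    ring
  · simp
    linear_combination (E' + w * x * E) * h1

lemma BBX_exp (y b : ℝ) (hb : 0 < b) (hb1 : b ≤ 1 / 1000) (hy : |y| ≤ b / 2) :
    |Real.exp y - 1| ≤ 6 / 10 * b := by
  have h1 : |y| ≤ 1 := by linarith
  have h2 := Real.abs_exp_sub_one_sub_id_le h1
  have h3 : y ^ 2 ≤ b / 1000 := by
    have h4 : y ^ 2 = |y| ^ 2 := (sq_abs y).symm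
    have h5 := abs_nonneg y
    rw [h4]
    nlinarith
  have h6 : |Real.exp y - 1| ≤ |Real.exp y - 1 - y| + |y| := by
    calc |Real.exp y - 1| = |(Real.exp y - 1 - y) + y| := by congr 1; ring
      _ ≤ _ := abs_add_le _ _
  linarith

theorem BBX_proof (hMO2 : MO2_stmt) : BBX_stmt := by
  intro Γ b w τ x X0 p h z γ hb hb1 hp hw hτ hx hγ hX
  obtain ⟨hd, hs, -, -⟩ := hMO2 (b / 1000) w τ x 0 (by positivity) (by linarith) hw hτ hx (by simp)
  have hE := BBX_exp (τ / 2) (b / 1000) (by positivity) (by linarith) (by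
    rw [abs_div, abs_of_pos (by norm_num : (0 : ℝ) < 2)]
    linarith)
  have hE0 : 0 < Real.exp (τ / 2) := Real.exp_pos _
  obtain ⟨hda, hdb⟩ := abs_le.mp hd
  obtain ⟨hea, heb⟩ := abs_le.mp hE
  have hd0 : 0 < dX w τ x := by linarith
  have hp0 : 0 < Real.exp (-p) := Real.exp_pos _
  have hp1 : Real.exp (-p) ≤ 1 := by
    rw [Real.exp_le_one_iff]
    linarith
  have hpp : Real.exp p * Real.exp (-p) = 1 := by
    rw [← Real.exp_add]
    simp
  have hX0 : |X0| ≤ b := by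
    have h1 : |X0| ≤ |sX w τ x| + |sX w τ x - X0| := by
      calc |X0| = |sX w τ x - (sX w τ x - X0)| := by congr 1; ring
        _ ≤ _ := abs_sub _ _
    have h2 : b / 4 * Real.exp (-p) ≤ b / 4 := by nlinarith
    linarith
  have hXw : |X0 * w| ≤ b / 1000 := by
    rw [abs_mul]
    calc |X0| * |w| ≤ 1 * (b / 1000) := mul_le_mul (by linarith) hw (abs_nonneg _) (by norm_num)
      _ = b / 1000 := one_mul _
  obtain ⟨hXwa, hXwb⟩ := abs_le.mp hXw
  refine ⟨z * nM X0 * aM (-p), by simp, γ, ?_⟩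
  have hmat : (z * nM X0 * aM (-p))⁻¹ * (γ : SL(2, ℝ)) * (h * aM (-p)) =
      aM p * nM (-X0) * (lM w * aM τ * nM x) * aM (-p) := by
    rw [mul_inv_rev, mul_inv_rev, BBX_ni, BBX_ai]
    calc aM p * (nM (-X0) * z⁻¹) * (γ : SL(2, ℝ)) * (h * aM (-p))
        = aM p * nM (-X0) * z⁻¹ * ((γ : SL(2, ℝ)) * h) * aM (-p) := by group
      _ = aM p * nM (-X0) * z⁻¹ * (z * lM w * aM τ * nM x) * aM (-p) := by rw [hγ]
      _ = _ := by group
  have hxE : x * Real.exp (τ / 2) - X0 * dX w τ x = dX w τ x * (sX w τ x - X0) := by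
    unfold sX
    field_simp
  rw [hmat]
  unfold bq
  change |((aM p * nM (-X0) * (lM w * aM τ * nM x) * aM (-p) : SL(2, ℝ)) : Matrix (Fin 2) (Fin 2) ℝ) 0 0 - 1| ≤ b ∧
    |((aM p * nM (-X0) * (lM w * aM τ * nM x) * aM (-p) : SL(2, ℝ)) : Matrix (Fin 2) (Fin 2) ℝ) 1 1 - 1| ≤ b ∧
    |((aM p * nM (-X0) * (lM w * aM τ * nM x) * aM (-p) : SL(2, ℝ)) : Matrix (Fin 2) (Fin 2) ℝ) 0 1| ≤ b ∧
    |((aM p * nM (-X0) * (lM w * aM τ * nM x) * aM (-p) : SL(2, ℝ)) : Matrix (Fin 2) (Fin 2) ℝ) 1 0| ≤ b * Real.exp (-p)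
  rw [BBX_mat, hxE]
  simp only [Matrix.of_apply, Matrix.cons_val', Matrix.cons_val_zero, Matrix.cons_val_one, Matrix.cons_val_fin_one]
  refine ⟨?_, by linarith, ?_, ?_⟩
  · rw [abs_le]
    constructor <;> nlinarith
  · rw [abs_mul, abs_mul, abs_of_pos (Real.exp_pos p), abs_of_pos hd0]
    calc Real.exp p * (dX w τ x * |sX w τ x - X0|)
        ≤ Real.exp p * (2 * (b / 4 * Real.exp (-p))) :=
          mul_le_mul_of_nonneg_left (mul_le_mul (by linarith) hX (abs_nonneg _) (by norm_num)) (Real.exp_pos p).le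
      _ = b / 2 * (Real.exp p * Real.exp (-p)) := by ring
      _ ≤ b := by rw [hpp]; linarith
  · rw [abs_mul, abs_mul, abs_of_pos hp0, abs_of_pos hE0]
    calc Real.exp (-p) * (|w| * Real.exp (τ / 2)) ≤ Real.exp (-p) * (b / 1000 * 2) :=
          mul_le_mul_of_nonneg_left (mul_le_mul hw (by linarith) hE0.le (by positivity)) hp0.le
      _ ≤ b * Real.exp (-p) := by nlinarith

end

end Pool.Agent.LP
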